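import Mathlib
import Pool.Prelude.Def_F_458e953d
import Pool.Agent.Lib.CxPspace.Defs
import Pool.Agent.MP_26a3fe_lc.Defs
import Pool.Agent.MP_26a3fe_lc.Member

namespace Pool.Agent.Results.MP_26a3fe_lc.PspaceComplete

open Pool.Agent.MP_26a3fe_lc Pool.Agent.Lib.CxPspace

theorem result (Q : Bool × Bool → Prop) (h1 : ∃ o, o ≠ (true, false) ∧ Q o)
    (h2 : ∃ o, o ≠ (true, false) ∧ ¬ Q o) : N793a5b8e.IsCompleteFor PSPACE (outcomeLang Q) :=
  pomax_complete Q h1 h2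

end Pool.Agent.Results.MP_26a3fe_lc.PspaceComplete
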